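import Pool.Agent.Helper74.Quo.Defs

/-!
# H-4: second derivatives are small along `e_n` (helper83)
-/

set_option autoImplicit false

open Filter Set
open scoped Topology ENNReal

namespace Pool.Agent.Helper74.Quo

variable {X : Type*} [NormedAddCommGroup X] [NormedSpace ℝ X]

namespace Bil

theorem signs (B : X →L[ℝ] X →L[ℝ] ℝ) (v : ℕ → X) (F : Finset ℕ) :
    ∃ s : ℕ → ℝ, (∀ n, |s n| = 1) ∧
      ∑ n ∈ F, B (v n) (v n) ≤ B (∑ n ∈ F, s n • v n) (∑ n ∈ F, s n • v n) := by
  classical
  induction F using Finset.induction_on with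
  | empty => exact ⟨fun _ => 1, fun _ => by simp, by simp⟩
  | insert a F ha ih =>
    obtain ⟨s, hs, hle⟩ := ih
    set w := ∑ n ∈ F, s n • v n with hw
    obtain ⟨t, ht, hcross⟩ : ∃ t : ℝ, |t| = 1 ∧ 0 ≤ t * (B w (v a) + B (v a) w) := by
      rcases le_total 0 (B w (v a) + B (v a) w) with h | h
      · exact ⟨1, by simp, by simpa using h⟩
      · exact ⟨-1, by simp, by linarith⟩
    have htt : t * t = 1 := by
      have := abs_mul_abs_self t
      rw [ht] at this
      linarith
    refine ⟨fun n => if n = a then t else s n, ?_, ?_⟩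
    · intro n
      dsimp only
      split_ifs
      · exact ht
      · exact hs n
    · rw [Finset.sum_insert ha, Finset.sum_insert ha]
      have hsum : ∑ n ∈ F, (if n = a then t else s n) • v n = w := by
        rw [hw]
        apply Finset.sum_congr rfl
        intro n hn
        have hne : n ≠ a := by
          rintro rfl
          exact ha hn
        rw [if_neg hne]
      rw [hsum]
      simp only [if_true, map_add, map_smul, add_apply,
        smul_apply, smul_eq_mul]
      have : t * (t * (B (v a)) (v a)) = B (v a) (v a) := by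
        rw [← mul_assoc, htt, one_mul]
      nlinarith [hle, hcross, this]

end Bil

theorem bil_small (S : Sys X) (B : X →L[ℝ] X →L[ℝ] ℝ)
    (hB1 : ∀ v ∈ S.K, ∀ w, B v w = 0) (hB2 : ∀ v ∈ S.K, ∀ w, B w v = 0) (c : ℝ) (hc : 0 < c) :
    ∀ᶠ n in atTop, B (S.g 0 n) (S.g 0 n) < c := by
  by_contra hcon
  have hfreq : ∃ᶠ n in atTop, c ≤ B (S.g 0 n) (S.g 0 n) := by
    rw [Filter.not_eventually] at hcon
    exact hcon.mono (fun n hn => not_lt.1 hn)
  have hinf : {n | c ≤ B (S.g 0 n) (S.g 0 n)}.Infinite :=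
    Nat.frequently_atTop_iff_infinite.1 hfreq
  obtain ⟨j, hj⟩ : ∃ j : ℕ, ‖B‖ / c < 16 ^ j := pow_unbounded_of_one_lt _ (by norm_num)
  rw [div_lt_iff₀ hc] at hj
  obtain ⟨F, hF, hcard⟩ := hinf.exists_subset_card_eq (4096 ^ j)
  set G : ℕ → X := fun n => (16 : ℝ) ^ j • S.g j n with hG
  have hGB : ∀ n, B (G n) (G n) = B (S.g 0 n) (S.g 0 n) := by
    intro n
    have hv : G n - S.g 0 n ∈ S.K := by
      intro m
      rw [map_sub, hG]
      dsimp only
      rw [map_smul, S.pair, S.pair, smul_eq_mul]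
      split_ifs
      · rw [← mul_pow]
        norm_num
      · simp
    have h1 : G n = S.g 0 n + (G n - S.g 0 n) := by abel
    have h2 := hB1 _ hv (S.g 0 n + (G n - S.g 0 n))
    have h3 := hB2 _ hv (S.g 0 n)
    rw [h1, map_add B, add_apply, h2, map_add, h3]
    simp
  obtain ⟨s, hs, hle⟩ := Bil.signs B G F
  have hlow : c * 4096 ^ j ≤ ∑ n ∈ F, B (G n) (G n) := by
    have : ∑ _n ∈ F, c ≤ ∑ n ∈ F, B (G n) (G n) := by
      apply Finset.sum_le_sum
      intro n hn
      rw [hGB]
      exact hF hn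
    rw [Finset.sum_const, hcard, nsmul_eq_mul] at this
    push_cast at this
    linarith
  have hnorm : ‖∑ n ∈ F, s n • G n‖ ≤ 16 ^ j := by
    have h1 : ∑ n ∈ F, s n • G n = (16 : ℝ) ^ j • ∑ n ∈ F, s n • S.g j n := by
      rw [Finset.smul_sum]
      apply Finset.sum_congr rfl
      intro n _
      rw [hG]
      dsimp only
      rw [smul_comm]
    rw [h1, norm_smul]
    have h2 := S.upper F (fun _ => j) s (fun n => (hs n).le)
    have h3 : ∑ _n ∈ F, (1 / 4096 : ℝ) ^ j = 1 := by
      rw [Finset.sum_const, hcard, nsmul_eq_mul]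
      push_cast
      rw [← mul_pow]
      norm_num
    rw [h3, Real.sqrt_one, Real.sqrt_one, max_self] at h2
    have h4 : ‖(16 : ℝ) ^ j‖ = 16 ^ j := by
      rw [Real.norm_of_nonneg (by positivity)]
    rw [h4]
    exact mul_le_of_le_one_right (by positivity) h2
  have hup : B (∑ n ∈ F, s n • G n) (∑ n ∈ F, s n • G n) ≤ ‖B‖ * 16 ^ j * 16 ^ j := by
    refine (Real.le_norm_self _).trans ((B.le_opNorm₂ _ _).trans ?_)
    gcongr
  have hkey : c * 4096 ^ j ≤ ‖B‖ * 16 ^ j * 16 ^ j := hlow.trans (hle.trans hup)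
  have h4096 : (4096 : ℝ) ^ j = 16 ^ j * 16 ^ j * 16 ^ j := by
    rw [← mul_pow, ← mul_pow]
    norm_num
  rw [h4096] at hkey
  have hpos : (0 : ℝ) < 16 ^ j * 16 ^ j := by positivity
  have : c * 16 ^ j * (16 ^ j * 16 ^ j) ≤ ‖B‖ * (16 ^ j * 16 ^ j) := by linarith
  have := le_of_mul_le_mul_right this hpos
  linarith

end Pool.Agent.Helper74.Quo
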