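import Mathlib

/-!
Definitions for the quotient argument: a Banach space with a smooth norm and a non-smooth quotient.
-/

set_option autoImplicit false

open Filter Set
open scoped Topology

namespace Pool.Agent.Helper74.Quo

instance fact4 : Fact ((1 : ENNReal) ≤ 4) := ⟨by norm_num⟩

/-- a system of vectors and functionals which witnesses an `ℓ₃`-like quotient -/
structure Sys (X : Type*) [NormedAddCommGroup X] [NormedSpace ℝ X] where
  g : ℕ → ℕ → X
  π : ℕ → (X →L[ℝ] ℝ)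
  C : ℝ
  C_pos : 0 < C
  pair : ∀ m j n, π m (g j n) = if m = n then (1 / 16 : ℝ) ^ j else 0
  upper : ∀ (F : Finset ℕ) (j : ℕ → ℕ) (s : ℕ → ℝ), (∀ n, |s n| ≤ 1) →
    ‖∑ n ∈ F, s n • g (j n) n‖ ≤ max (Real.sqrt (∑ n ∈ F, (1 / 4096 : ℝ) ^ (j n)))
      (Real.sqrt (Real.sqrt (∑ n ∈ F, (1 / 4096 : ℝ) ^ (j n))))
  lower : ∀ (u : X) (F : Finset ℕ), ∑ n ∈ F, |π n u| ^ 3 ≤ C ^ 3 * ‖u‖ ^ 3

variable {X : Type*} [NormedAddCommGroup X] [NormedSpace ℝ X]

/-- the kernel of the quotient map -/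
def Sys.K (S : Sys X) : Set X := {v | ∀ n, S.π n v = 0}

/-- the quotient norm -/
noncomputable def Sys.f (S : Sys X) (u : X) : ℝ := Metric.infDist u S.K

end Pool.Agent.Helper74.Quo
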