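import Pool.Agent.Helper74.Quo.Defs

/-!
The distance to the kernel.
-/

set_option autoImplicit false

open Filter Set
open scoped Topology

namespace Pool.Agent.Helper74.Quo

variable {X : Type*} [NormedAddCommGroup X] [NormedSpace ℝ X]

namespace Dist

theorem zero_mem (S : Sys X) : (0 : X) ∈ S.K := fun n => by simp

theorem nonempty (S : Sys X) : S.K.Nonempty := ⟨0, zero_mem S⟩

theorem comb_mem (S : Sys X) {v w : X} (hv : v ∈ S.K) (hw : w ∈ S.K) (a b : ℝ) :
    a • v + b • w ∈ S.K := fun n => by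
  rw [map_add, map_smul, map_smul, hv n, hw n]
  simp

theorem infDist_le (S : Sys X) {u v : X} (hv : v ∈ S.K) : S.f u ≤ ‖u - v‖ := by
  have := Metric.infDist_le_dist_of_mem (x := u) hv
  rwa [dist_eq_norm] at this

theorem exists_near (S : Sys X) (u : X) {ε : ℝ} (hε : 0 < ε) :
    ∃ v ∈ S.K, ‖u - v‖ < S.f u + ε := by
  have h := (Metric.infDist_lt_iff (nonempty S)).1 (show Metric.infDist u S.K < S.f u + ε by
    unfold Sys.f; linarith)
  obtain ⟨v, hv, h⟩ := h
  exact ⟨v, hv, by rwa [dist_eq_norm] at h⟩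

theorem f_along_le (S : Sys X) (v : X) (hv : v ∈ S.K) (u : X) (t : ℝ) :
    S.f (u + t • v) ≤ S.f u := by
  apply le_of_forall_pos_le_add
  intro ε hε
  obtain ⟨w, hw, h⟩ := exists_near S u hε
  have h1 : (1 : ℝ) • w + t • v ∈ S.K := comb_mem S hw hv 1 t
  refine (infDist_le S h1).trans ?_
  have h2 : u + t • v - ((1 : ℝ) • w + t • v) = u - w := by
    rw [one_smul]; abel
  rw [h2]
  exact h.le

end Dist

theorem f_convex (S : Sys X) : ConvexOn ℝ univ S.f := by
  refine ⟨convex_univ, ?_⟩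
  intro x _ y _ a b ha hb hab
  apply le_of_forall_pos_le_add
  intro ε hε
  obtain ⟨v, hv, h1⟩ := Dist.exists_near S x hε
  obtain ⟨w, hw, h2⟩ := Dist.exists_near S y hε
  refine (Dist.infDist_le S (Dist.comb_mem S hv hw a b)).trans ?_
  have h3 : a • x + b • y - (a • v + b • w) = a • (x - v) + b • (y - w) := by
    rw [smul_sub, smul_sub]; abel
  rw [h3]
  calc ‖a • (x - v) + b • (y - w)‖ ≤ ‖a • (x - v)‖ + ‖b • (y - w)‖ := norm_add_le _ _
    _ = a * ‖x - v‖ + b * ‖y - w‖ := by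
        rw [norm_smul, norm_smul, Real.norm_of_nonneg ha, Real.norm_of_nonneg hb]
    _ ≤ a * (S.f x + ε) + b * (S.f y + ε) :=
        add_le_add (mul_le_mul_of_nonneg_left h1.le ha) (mul_le_mul_of_nonneg_left h2.le hb)
    _ = a • S.f x + b • S.f y + ε := by
        rw [smul_eq_mul, smul_eq_mul]
        linear_combination ε * hab

theorem f_lipschitz (S : Sys X) : LipschitzWith 1 S.f := Metric.lipschitz_infDist_pt _

theorem f_along (S : Sys X) (v : X) (hv : v ∈ S.K) (u : X) (t : ℝ) : S.f (u + t • v) = S.f u := by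
  apply le_antisymm (Dist.f_along_le S v hv u t)
  have h := Dist.f_along_le S v hv (u + t • v) (-t)
  have h1 : u + t • v + -t • v = u := by
    rw [neg_smul]; abel
  rwa [h1] at h

theorem f_lower (S : Sys X) (u : X) (F : Finset ℕ) :
    ∑ n ∈ F, |S.π n u| ^ 3 ≤ S.C ^ 3 * (S.f u) ^ 3 := by
  have hC := S.C_pos
  have hf : 0 ≤ S.f u := Metric.infDist_nonneg
  have hkey : ∀ ε : ℝ, 0 < ε → ∑ n ∈ F, |S.π n u| ^ 3 ≤ S.C ^ 3 * (S.f u + ε) ^ 3 := by
    intro ε hε
    obtain ⟨v, hv, h1⟩ := Dist.exists_near S u hε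
    have h2 := S.lower (u - v) F
    have h3 : ∑ n ∈ F, |S.π n (u - v)| ^ 3 = ∑ n ∈ F, |S.π n u| ^ 3 :=
      Finset.sum_congr rfl fun n _ => by rw [map_sub, hv n, sub_zero]
    rw [h3] at h2
    refine h2.trans ?_
    apply mul_le_mul_of_nonneg_left _ (by positivity)
    exact pow_le_pow_left₀ (norm_nonneg _) h1.le 3
  have hlim : Tendsto (fun ε : ℝ => S.C ^ 3 * (S.f u + ε) ^ 3) (𝓝[>] 0)
      (𝓝 (S.C ^ 3 * (S.f u + 0) ^ 3)) := by
    apply Tendsto.mono_left _ nhdsWithin_le_nhds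
    exact ((continuous_const.mul ((continuous_const.add continuous_id).pow 3)).tendsto _)
  rw [add_zero] at hlim
  apply ge_of_tendsto hlim
  filter_upwards [self_mem_nhdsWithin] with ε hε
  exact hkey ε hε

end Pool.Agent.Helper74.Quo
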