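import Pool.Agent.Helper74.Quo.Defs

/-!
The greedy path: from a one-step estimate to a long path on which the function grows slowly.
-/

set_option autoImplicit false

open Filter Set
open scoped Topology

namespace Pool.Agent.Helper74.Quo

variable {X : Type*} [NormedAddCommGroup X] [NormedSpace ℝ X]

namespace Greedy

/-- A sequence of states built by a choice of next step. -/
theorem exists_path (S : Sys X) (φ : X → ℝ) (η : ℝ)
    (J : X → ℕ)
    (hJ : ∀ u, ∀ᶠ n in atTop, ∃ s : ℝ, |s| = 1 ∧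
      φ (u + s • S.g (J u) n) ≤ φ u + η * (1 / 4096) ^ (J u)) :
    ∃ (u : ℕ → X) (nn : ℕ → ℕ) (sg : ℕ → ℝ), u 0 = 0 ∧ StrictMono nn ∧
      (∀ m, |sg m| = 1) ∧ (∀ m, u (m + 1) = u m + sg m • S.g (J (u m)) (nn m)) ∧
      (∀ m, φ (u (m + 1)) ≤ φ (u m) + η * (1 / 4096) ^ (J (u m))) := by
  have hch : ∀ p : X × ℕ, ∃ q : ℕ × ℝ, p.2 ≤ q.1 ∧ |q.2| = 1 ∧
      φ (p.1 + q.2 • S.g (J p.1) q.1) ≤ φ p.1 + η * (1 / 4096) ^ (J p.1) := by
    intro p
    obtain ⟨n, ⟨s, hs1, hs2⟩, hn⟩ := ((hJ p.1).and (eventually_ge_atTop p.2)).exists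
    exact ⟨(n, s), hn, hs1, hs2⟩
  choose q hq1 hq2 hq3 using hch
  let step : X × ℕ → X × ℕ := fun p => (p.1 + (q p).2 • S.g (J p.1) (q p).1, (q p).1 + 1)
  let st : ℕ → X × ℕ := fun m => step^[m] (0, 0)
  have hst : ∀ m, st (m + 1) = step (st m) := by
    intro m
    simp only [st, Function.iterate_succ_apply']
  refine ⟨fun m => (st m).1, fun m => (q (st m)).1, fun m => (q (st m)).2, rfl, ?_, ?_, ?_, ?_⟩
  · refine strictMono_nat_of_lt_succ ?_
    intro m
    have h1 := hq1 (st (m + 1))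
    rw [hst m] at h1
    rw [hst m]
    have h2 : (step (st m)).2 = (q (st m)).1 + 1 := rfl
    rw [h2] at h1
    omega
  · intro m
    exact hq2 _
  · intro m
    show (st (m + 1)).1 = _
    rw [hst m]
  · intro m
    show φ (st (m + 1)).1 ≤ _
    rw [hst m]
    exact hq3 (st m)

theorem sum_le_tail (τ : ℕ → ℝ) (hτ : ∀ m, 0 ≤ τ m) (hs : Summable τ) (N n m : ℕ) (h : N ≤ n) :
    ∑ k ∈ Finset.Ico n m, τ k ≤ ∑' k, τ (k + N) := by
  have h1 : ∑ k ∈ Finset.Ico n m, τ k ≤ ∑ k ∈ Finset.Ico N m, τ k := by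
    refine Finset.sum_le_sum_of_subset_of_nonneg ?_ (fun i _ _ => hτ i)
    exact Finset.Ico_subset_Ico_left h
  have h2 : ∑ k ∈ Finset.Ico N m, τ k = ∑ k ∈ Finset.range (m - N), τ (k + N) := by
    rw [Finset.sum_Ico_eq_sum_range]
    refine Finset.sum_congr rfl ?_
    intro k _
    rw [add_comm]
  rw [h2] at h1
  refine h1.trans ?_
  exact Summable.sum_le_tsum _ (fun i _ => hτ _) ((summable_nat_add_iff N).2 hs)

end Greedy

theorem greedy [CompleteSpace X] (S : Sys X) (φ : X → ℝ) (hφ : Continuous φ) (η : ℝ)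
    (hη : 0 < η)
    (hstep : ∀ u₀, ∃ r > 0, ∃ j₀ : ℕ, ∀ u, ‖u - u₀‖ ≤ r → ∀ᶠ n in atTop,
      ∃ s : ℝ, |s| = 1 ∧ φ (u + s • S.g j₀ n) ≤ φ u + η * (1 / 4096) ^ j₀)
    (R : ℝ) (hR : 0 < R) :
    ∃ (F : Finset ℕ) (j : ℕ → ℕ) (s : ℕ → ℝ), (∀ n, |s n| = 1) ∧
      R ≤ ∑ n ∈ F, (1 / 4096 : ℝ) ^ (j n) ∧ ∑ n ∈ F, (1 / 4096 : ℝ) ^ (j n) ≤ R + 1 ∧
      φ (∑ n ∈ F, s n • S.g (j n) n) ≤ φ 0 + η * ∑ n ∈ F, (1 / 4096 : ℝ) ^ (j n) := by
  classical
  have hP : ∀ u, ∃ j : ℕ, ∀ᶠ n in atTop, ∃ s : ℝ, |s| = 1 ∧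
      φ (u + s • S.g j n) ≤ φ u + η * (1 / 4096) ^ j := by
    intro u
    obtain ⟨r, hr, j₀, h⟩ := hstep u
    exact ⟨j₀, h u (by simpa using hr.le)⟩
  obtain ⟨u, nn, sg, hu0, hnn, hsg, hu, hφu⟩ :=
    Greedy.exists_path S φ η (fun u => Nat.find (hP u)) (fun u => Nat.find_spec (hP u))
  set jj : ℕ → ℕ := fun m => Nat.find (hP (u m)) with hjj
  set τ : ℕ → ℝ := fun m => (1 / 4096 : ℝ) ^ (jj m) with hτdef
  have hτ0 : ∀ m, 0 ≤ τ m := fun m => by positivity
  have hτ1 : ∀ m, τ m ≤ 1 := fun m => pow_le_one₀ (by norm_num) (by norm_num)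
  have hinj : Function.Injective nn := hnn.injective
  set jf : ℕ → ℕ := fun n => jj (Function.invFun nn n) with hjf
  set sf : ℕ → ℝ := fun n => sg (Function.invFun nn n) with hsf
  have hinv : ∀ m, Function.invFun nn (nn m) = m := Function.leftInverse_invFun hinj
  have hjf' : ∀ m, jf (nn m) = jj m := fun m => by simp only [hjf, hinv]
  have hsf' : ∀ m, sf (nn m) = sg m := fun m => by simp only [hsf, hinv]
  have hsf1 : ∀ n, |sf n| = 1 := fun n => hsg _
  -- sums over images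
  have hsumτ : ∀ A : Finset ℕ, ∑ n ∈ A.image nn, (1 / 4096 : ℝ) ^ (jf n) = ∑ m ∈ A, τ m := by
    intro A
    rw [Finset.sum_image (fun x _ y _ h => hinj h)]
    refine Finset.sum_congr rfl ?_
    intro m _
    rw [hjf']
  have hsumg : ∀ A : Finset ℕ, ∑ n ∈ A.image nn, sf n • S.g (jf n) n =
      ∑ m ∈ A, sg m • S.g (jj m) (nn m) := by
    intro A
    rw [Finset.sum_image (fun x _ y _ h => hinj h)]
    refine Finset.sum_congr rfl ?_
    intro m _
    rw [hjf', hsf']
  have hdiff : ∀ n m, n ≤ m → u m - u n = ∑ k ∈ Finset.Ico n m, sg k • S.g (jj k) (nn k) := by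
    intro n m hnm
    induction m, hnm using Nat.le_induction with
    | base => simp
    | succ m hnm ih =>
      rw [Finset.sum_Ico_succ_top hnm, ← ih, hu m]
      abel
  have huM : ∀ M, u M = ∑ k ∈ Finset.range M, sg k • S.g (jj k) (nn k) := by
    intro M
    have h := hdiff 0 M (Nat.zero_le _)
    rw [hu0, sub_zero] at h
    rw [h, Finset.range_eq_Ico]
  have hφM : ∀ M, φ (u M) ≤ φ 0 + η * ∑ k ∈ Finset.range M, τ k := by
    intro M
    induction M with
    | zero => simp [hu0]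
    | succ M ih =>
      rw [Finset.sum_range_succ, mul_add]
      have h := hφu M
      have h2 : η * (1 / 4096 : ℝ) ^ (Nat.find (hP (u M))) = η * τ M := rfl
      rw [h2] at h
      linarith
  -- the sum of the `τ`'s is unbounded
  have hunb : ∃ M, R ≤ ∑ k ∈ Finset.range M, τ k := by
    by_contra hcon
    push Not at hcon
    have hsum : Summable τ := summable_of_sum_range_le hτ0 (fun M => (hcon M).le)
    have htail : Tendsto (fun N => ∑' k, τ (k + N)) atTop (𝓝 0) := tendsto_sum_nat_add τ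
    have hb : Tendsto (fun N => max (Real.sqrt (∑' k, τ (k + N)))
        (Real.sqrt (Real.sqrt (∑' k, τ (k + N))))) atTop (𝓝 0) := by
      have h1 : Tendsto (fun N => Real.sqrt (∑' k, τ (k + N))) atTop (𝓝 0) := by
        have h := (Real.continuous_sqrt.tendsto 0).comp htail
        rw [Real.sqrt_zero] at h
        exact h
      have h2 : Tendsto (fun N => Real.sqrt (Real.sqrt (∑' k, τ (k + N)))) atTop (𝓝 0) := by
        have h := (Real.continuous_sqrt.tendsto 0).comp h1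
        rw [Real.sqrt_zero] at h
        exact h
      simpa using h1.max h2
    have hle : ∀ n m N, N ≤ n → n ≤ m → dist (u n) (u m) ≤
        max (Real.sqrt (∑' k, τ (k + N))) (Real.sqrt (Real.sqrt (∑' k, τ (k + N)))) := by
      intro n m N hNn hnm
      rw [dist_comm, dist_eq_norm, hdiff n m hnm, ← hsumg]
      refine (S.upper _ jf sf (fun n => (hsf1 n).le)).trans ?_
      rw [hsumτ]
      have h := Greedy.sum_le_tail τ hτ0 hsum N n m hNn
      exact max_le_max (Real.sqrt_le_sqrt h) (Real.sqrt_le_sqrt (Real.sqrt_le_sqrt h))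
    have hcau : CauchySeq u := by
      refine cauchySeq_of_le_tendsto_0 _ ?_ hb
      intro n m N hNn hNm
      rcases le_total n m with h | h
      · exact hle n m N hNn h
      · rw [dist_comm]
        exact hle m n N hNm h
    obtain ⟨u₀, hu₀⟩ := cauchySeq_tendsto_of_complete hcau
    obtain ⟨r, hr, j₀, hj₀⟩ := hstep u₀
    have hev1 : ∀ᶠ m in atTop, ‖u m - u₀‖ ≤ r := by
      have h := (tendsto_iff_norm_sub_tendsto_zero.1 hu₀).eventually (Iic_mem_nhds hr)
      exact h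
    have hev2 : ∀ᶠ m in atTop, τ m < (1 / 4096 : ℝ) ^ j₀ :=
      hsum.tendsto_atTop_zero.eventually (Iio_mem_nhds (by positivity))
    obtain ⟨m, hm1, hm2⟩ := (hev1.and hev2).exists
    have h3 : jj m ≤ j₀ := Nat.find_min' (hP (u m)) (hj₀ (u m) hm1)
    have h4 : (1 / 4096 : ℝ) ^ j₀ ≤ τ m :=
      pow_le_pow_of_le_one (by norm_num) (by norm_num) h3
    linarith
  have hM1 := Nat.find_spec hunb
  have hM2 : ∑ k ∈ Finset.range (Nat.find hunb), τ k ≤ R + 1 := by
    rcases Nat.eq_zero_or_pos (Nat.find hunb) with h0 | hpos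
    · rw [h0]
      simp
      linarith
    · obtain ⟨M', hM'⟩ : ∃ M', Nat.find hunb = M' + 1 := ⟨Nat.find hunb - 1, by omega⟩
      have hlt : M' < Nat.find hunb := by omega
      have h1 := Nat.find_min hunb hlt
      push Not at h1
      rw [hM', Finset.sum_range_succ]
      have := hτ1 M'
      linarith
  refine ⟨(Finset.range (Nat.find hunb)).image nn, jf, sf, hsf1, ?_, ?_, ?_⟩
  · rw [hsumτ]
    exact hM1
  · rw [hsumτ]
    exact hM2
  · rw [hsumτ, hsumg, ← huM]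
    exact hφM _

end Pool.Agent.Helper74.Quo
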