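import Pool.Agent.Helper74.Quo.Defs

/-!
Convex functions close to a function which is invariant along a vector.
-/

set_option autoImplicit false

open Filter Set
open scoped Topology ENNReal

namespace Pool.Agent.Helper74.Quo

variable {X : Type*} [NormedAddCommGroup X] [NormedSpace ℝ X]

namespace Inv

theorem le_along (φ : X → ℝ) (hc : ConvexOn ℝ univ φ) (f : X → ℝ) (ε : ℝ)
    (hf : ∀ x, |f x - φ x| ≤ ε) (v : X) (hv : ∀ u, ∀ t : ℝ, f (u + t • v) = f u) (u : X) :
    φ (u + v) ≤ φ u := by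
  by_contra hlt
  push Not at hlt
  have hε : 0 ≤ ε := (abs_nonneg _).trans (hf u)
  obtain ⟨δ, hδ⟩ : ∃ δ, δ = φ (u + v) - φ u := ⟨_, rfl⟩
  have hδ0 : 0 < δ := by linarith
  obtain ⟨t, ht⟩ : ∃ t, t = (2 * ε + 1) / δ + 1 := ⟨_, rfl⟩
  have ht1 : 1 ≤ t := by
    have : 0 ≤ (2 * ε + 1) / δ := by positivity
    linarith
  have ht0 : 0 < t := by linarith
  have hb : 0 ≤ 1 / t := by positivity
  have ha : 0 ≤ 1 - 1 / t := by
    have : 1 / t ≤ 1 := by rw [div_le_one ht0]; exact ht1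
    linarith
  have h1 := hc.2 (mem_univ u) (mem_univ (u + t • v)) ha hb (by ring)
  have h2 : (1 - 1 / t) • u + (1 / t) • (u + t • v) = u + v := by
    rw [smul_add, smul_smul, one_div, inv_mul_cancel₀ ht0.ne', one_smul, ← add_assoc, ← add_smul]
    rw [sub_add_cancel, one_smul]
  rw [h2, smul_eq_mul, smul_eq_mul] at h1
  have h3 : φ (u + t • v) ≤ φ u + 2 * ε := by
    have e1 := (abs_le.1 (hf (u + t • v))).1
    have e2 := (abs_le.1 (hf u)).2
    rw [hv u t] at e1
    linarith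
  have h4 : φ (u + v) ≤ φ u + 2 * ε / t := by
    have e1 : 1 / t * φ (u + t • v) ≤ 1 / t * (φ u + 2 * ε) := mul_le_mul_of_nonneg_left h3 hb
    have e2 : (1 - 1 / t) * φ u + 1 / t * (φ u + 2 * ε) = φ u + 2 * ε / t := by ring
    linarith
  have h5 : δ * t ≤ 2 * ε := by
    have e1 : δ ≤ 2 * ε / t := by linarith
    rwa [le_div_iff₀ ht0] at e1
  have h6 : δ * t = 2 * ε + 1 + δ := by
    rw [ht]
    field_simp
  linarith

end Inv

theorem const_along (φ : X → ℝ) (hc : ConvexOn ℝ univ φ) (f : X → ℝ) (ε : ℝ)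
    (hf : ∀ x, |f x - φ x| ≤ ε) (v : X) (hv : ∀ u, ∀ t : ℝ, f (u + t • v) = f u) (u : X) :
    φ (u + v) = φ u := by
  refine le_antisymm (Inv.le_along φ hc f ε hf v hv u) ?_
  have hv' : ∀ u, ∀ t : ℝ, f (u + t • (-v)) = f u := by
    intro u t
    have := hv u (-t)
    rwa [neg_smul, ← smul_neg] at this
  have h1 := Inv.le_along φ hc f ε hf (-v) hv' (u + v)
  rwa [add_neg_cancel_right] at h1

namespace Inv

theorem deriv_line {F : Type*} [NormedAddCommGroup F] [NormedSpace ℝ F] (G : X → F)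
    (hG : Differentiable ℝ G) (u v : X) (h : ∀ t : ℝ, G (u + t • v) = G u) :
    fderiv ℝ G u v = 0 := by
  have h1 : HasDerivAt (fun t : ℝ => u + t • v) v 0 := by
    have h0 : HasDerivAt (fun t : ℝ => t • v) ((1 : ℝ) • v) 0 :=
      (hasDerivAt_id (0 : ℝ)).smul_const v
    rw [one_smul] at h0
    exact h0.const_add u
  have h2 : HasFDerivAt G (fderiv ℝ G u) (u + (0 : ℝ) • v) := by
    rw [zero_smul, add_zero]
    exact (hG u).hasFDerivAt
  have h3 : HasDerivAt (fun t : ℝ => G (u + t • v)) (fderiv ℝ G u v) 0 :=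
    h2.comp_hasDerivAt 0 h1
  have h4 : (fun t : ℝ => G (u + t • v)) = fun _ => G u := funext h
  rw [h4] at h3
  exact h3.unique (hasDerivAt_const _ _)

end Inv

theorem fderiv_along (φ : X → ℝ) (hφ : ContDiff ℝ 3 φ) (v : X)
    (hv : ∀ u, ∀ t : ℝ, φ (u + t • v) = φ u) (u w : X) :
    fderiv ℝ (fderiv ℝ φ) u v w = 0 ∧ fderiv ℝ (fderiv ℝ φ) u w v = 0 := by
  have hd : Differentiable ℝ φ := hφ.differentiable (by norm_num)
  have hd2 : Differentiable ℝ (fderiv ℝ φ) :=
    (hφ.fderiv_right (m := 2) (by norm_num)).differentiable (by norm_num)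
  constructor
  · have h1 : fderiv ℝ (fderiv ℝ φ) u v = 0 := by
      refine Inv.deriv_line (fderiv ℝ φ) hd2 u v fun t => ?_
      have h2 : (fun x => φ (x + t • v)) = φ := funext fun x => hv x t
      have h3 := fderiv_comp_add_right (𝕜 := ℝ) (f := φ) (x := u) (t • v)
      rw [h2] at h3
      exact h3.symm
    rw [h1]
    rfl
  · have h0 : ∀ x, fderiv ℝ φ x v = 0 := fun x => Inv.deriv_line φ hd x v (hv x)
    have h1 : HasFDerivAt (fun x => fderiv ℝ φ x v)
        ((fderiv ℝ (fderiv ℝ φ) u).flip v) u := by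
      have := (hd2 u).hasFDerivAt.clm_apply (hasFDerivAt_const v u)
      refine this.congr_fderiv ?_
      ext w
      simp
    have h2 : (fun x => fderiv ℝ φ x v) = fun _ => (0 : ℝ) := funext h0
    rw [h2] at h1
    have h3 := h1.unique (hasFDerivAt_const (0 : ℝ) u)
    have h4 := congrArg (fun A : X →L[ℝ] ℝ => A w) h3
    simpa using h4

end Pool.Agent.Helper74.Quo
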