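import Pool.Agent.Helper74.Quo.Defs

/-!
The fourth power of the norm of `ℓ₄` is smooth.
-/

set_option autoImplicit false

open Filter Set
open scoped Topology ENNReal

namespace Pool.Agent.Helper74.Quo

namespace LpFour

variable {ι : Type*}

theorem toReal4 : (4 : ℝ≥0∞).toReal = 4 := by simp

theorem toReal2 : (2 : ℝ≥0∞).toReal = 2 := by simp

theorem summable4 (b : lp (fun _ : ι => ℝ) (4 : ℝ≥0∞)) : Summable fun i => (b i) ^ 4 := by
  have h := (lp.memℓp b).summable (by rw [toReal4]; norm_num)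
  refine h.congr fun i => ?_
  rw [toReal4, Real.norm_eq_abs]
  have h1 : |b i| ^ (4 : ℝ) = |b i| ^ (4 : ℕ) := by
    rw [← Real.rpow_natCast]; norm_num
  rw [h1]
  exact (Even.pow_abs (by decide) _)

theorem norm4 (b : lp (fun _ : ι => ℝ) (4 : ℝ≥0∞)) : ‖b‖ ^ 4 = ∑' i, (b i) ^ 4 := by
  have h := lp.norm_rpow_eq_tsum (p := (4 : ℝ≥0∞)) (by rw [toReal4]; norm_num) b
  rw [toReal4] at h
  have h0 : ‖b‖ ^ (4 : ℝ) = ‖b‖ ^ (4 : ℕ) := by
    rw [← Real.rpow_natCast]; norm_num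
  rw [h0] at h
  rw [h]
  refine tsum_congr fun i => ?_
  rw [Real.norm_eq_abs]
  have h1 : |b i| ^ (4 : ℝ) = |b i| ^ (4 : ℕ) := by
    rw [← Real.rpow_natCast]; norm_num
  rw [h1]
  exact (Even.pow_abs (by decide) _)

theorem norm2 (b : lp (fun _ : ι => ℝ) (2 : ℝ≥0∞)) : ‖b‖ ^ 2 = ∑' i, (b i) ^ 2 := by
  have h := lp.norm_rpow_eq_tsum (p := (2 : ℝ≥0∞)) (by rw [toReal2]; norm_num) b
  rw [toReal2] at h
  have h0 : ‖b‖ ^ (2 : ℝ) = ‖b‖ ^ (2 : ℕ) := by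
    rw [← Real.rpow_natCast]; norm_num
  rw [h0] at h
  rw [h]
  refine tsum_congr fun i => ?_
  rw [Real.norm_eq_abs]
  have h1 : |b i| ^ (2 : ℝ) = |b i| ^ (2 : ℕ) := by
    rw [← Real.rpow_natCast]; norm_num
  rw [h1]
  exact sq_abs _

theorem summable_mul (b c : lp (fun _ : ι => ℝ) (4 : ℝ≥0∞)) :
    Summable fun i => (b i * c i) ^ 2 := by
  have h : Summable fun i => ((b i) ^ 4 + (c i) ^ 4) := (summable4 b).add (summable4 c)
  refine Summable.of_nonneg_of_le (fun i => sq_nonneg _) (fun i => ?_) h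
  nlinarith [sq_nonneg ((b i) ^ 2 - (c i) ^ 2), sq_nonneg ((b i) ^ 2), sq_nonneg ((c i) ^ 2)]

theorem mem_mul (b c : lp (fun _ : ι => ℝ) (4 : ℝ≥0∞)) :
    Memℓp (fun i => b i * c i) (2 : ℝ≥0∞) := by
  refine memℓp_gen ?_
  refine (summable_mul b c).congr fun i => ?_
  rw [toReal2, Real.norm_eq_abs]
  have h1 : |b i * c i| ^ (2 : ℝ) = |b i * c i| ^ (2 : ℕ) := by
    rw [← Real.rpow_natCast]; norm_num
  rw [h1]
  exact (sq_abs _).symm

/-- the coordinatewise product -/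
noncomputable def prod (b c : lp (fun _ : ι => ℝ) (4 : ℝ≥0∞)) : lp (fun _ : ι => ℝ) (2 : ℝ≥0∞) :=
  ⟨fun i => b i * c i, mem_mul b c⟩

theorem prod_apply (b c : lp (fun _ : ι => ℝ) (4 : ℝ≥0∞)) (i : ι) : prod b c i = b i * c i := rfl

theorem norm_prod_le (b c : lp (fun _ : ι => ℝ) (4 : ℝ≥0∞)) :
    ‖prod b c‖ ≤ 1 * ‖b‖ * ‖c‖ := by
  rw [one_mul]
  have h1 : ‖prod b c‖ ^ 2 = ∑' i, (b i) ^ 2 * (c i) ^ 2 := by
    rw [norm2]
    exact tsum_congr fun i => by rw [prod_apply]; ring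
  have hpq : (2 : ℝ).HolderConjugate 2 := Real.HolderConjugate.two_two
  have hs : ∀ b : lp (fun _ : ι => ℝ) (4 : ℝ≥0∞), ∀ i, ((b i) ^ 2) ^ (2 : ℝ) = (b i) ^ 4 := by
    intro b i
    have : ((b i) ^ 2) ^ (2 : ℝ) = ((b i) ^ 2) ^ (2 : ℕ) := by
      rw [← Real.rpow_natCast]; norm_num
    rw [this]; ring
  have h2 := (Real.inner_le_Lp_mul_Lq_tsum_of_nonneg hpq (f := fun i => (b i) ^ 2)
    (g := fun i => (c i) ^ 2) (fun i => sq_nonneg _) (fun i => sq_nonneg _)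
    ((summable4 b).congr fun i => (hs b i).symm) ((summable4 c).congr fun i => (hs c i).symm))
  rw [← h1] at h2
  have h3 : (∑' i, ((b i) ^ 2) ^ (2 : ℝ)) = ‖b‖ ^ 4 := by
    rw [norm4]; exact tsum_congr (hs b)
  have h4 : (∑' i, ((c i) ^ 2) ^ (2 : ℝ)) = ‖c‖ ^ 4 := by
    rw [norm4]; exact tsum_congr (hs c)
  rw [h3, h4] at h2
  have h5 : ∀ x : ℝ, 0 ≤ x → (x ^ 4) ^ (1 / 2 : ℝ) = x ^ 2 := by
    intro x hx
    rw [← Real.sqrt_eq_rpow, show x ^ 4 = (x ^ 2) ^ 2 by ring, Real.sqrt_sq (sq_nonneg _)]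
  rw [h5 _ (norm_nonneg _), h5 _ (norm_nonneg _), ← mul_pow] at h2
  exact le_of_sq_le_sq h2 (by positivity)

/-- the coordinatewise product as a continuous bilinear map -/
noncomputable def prodL : lp (fun _ : ι => ℝ) (4 : ℝ≥0∞) →L[ℝ]
    lp (fun _ : ι => ℝ) (4 : ℝ≥0∞) →L[ℝ] lp (fun _ : ι => ℝ) (2 : ℝ≥0∞) :=
  LinearMap.mkContinuous₂ (LinearMap.mk₂ ℝ prod
    (by
      intro b b' c
      ext i
      rw [lp.coeFn_add, Pi.add_apply, prod_apply, prod_apply, prod_apply, lp.coeFn_add,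
        Pi.add_apply]
      ring)
    (by
      intro t b c
      ext i
      rw [lp.coeFn_smul, Pi.smul_apply, prod_apply, prod_apply, lp.coeFn_smul, Pi.smul_apply,
        smul_eq_mul, smul_eq_mul]
      ring)
    (by
      intro b c c'
      ext i
      rw [lp.coeFn_add, Pi.add_apply, prod_apply, prod_apply, prod_apply, lp.coeFn_add,
        Pi.add_apply]
      ring)
    (by
      intro t b c
      ext i
      rw [lp.coeFn_smul, Pi.smul_apply, prod_apply, prod_apply, lp.coeFn_smul, Pi.smul_apply,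
        smul_eq_mul, smul_eq_mul]
      ring)) 1 norm_prod_le

theorem prodL_apply (b c : lp (fun _ : ι => ℝ) (4 : ℝ≥0∞)) : prodL b c = prod b c := rfl

end LpFour

open LpFour in
theorem contDiff_lp4 {ι : Type*} (k : WithTop ℕ∞) :
    ContDiff ℝ k (fun b : lp (fun _ : ι => ℝ) (4 : ℝ≥0∞) => ‖b‖ ^ 4) := by
  have h1 : (fun b : lp (fun _ : ι => ℝ) (4 : ℝ≥0∞) => ‖b‖ ^ 4) =
      fun b => ‖(prodL (ι := ι) b) b‖ ^ 2 := by
    funext b
    rw [prodL_apply, norm2, norm4]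
    exact tsum_congr fun i => by rw [prod_apply]; ring
  rw [h1]
  have h2 : ContDiff ℝ k fun b : lp (fun _ : ι => ℝ) (4 : ℝ≥0∞) => (prodL (ι := ι) b) b :=
    (ContinuousLinearMap.contDiff (prodL (ι := ι))).clm_apply contDiff_id
  exact (contDiff_norm_sq ℝ).comp h2

end Pool.Agent.Helper74.Quo
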